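import Pool.Agent.Helper89.FR.UPb

/-!
# Row UP: approximate solutions
-/

set_option autoImplicit false

namespace Pool.Agent.Helper89.FR

open Matrix Pool.Agent.Helper81.Fmr Pool.Agent.Helper42.FR

universe u

section
variable (F : Type u) [Field F] {G Y : Type} {q : ℕ} [DecidableEq Y] (k : ℕ)
  (s t : Equiv.Perm G) (x : G → Y)

/-- the indicator -/
def ev (c : BB G Y q) : F := if ((yy s x c).1 : ℕ) < k then 1 else 0

lemma ev_eq (c c' : BB G Y q) (h : (yy s x c).1 = (yy s x c').1) :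
    ev F k s x c = ev F k s x c' := by
  unfold ev
  rw [h]

variable (H : Equiv.Perm (Fin q × Fin q)) (A : Fin 5 → Finset (Fin q × Fin q))

lemma st1 (c : BB G Y q) (h : ¬ x c.1 = x (s c.1)) :
    ¬ x ((hp s x H).symm c).1 = x (s ((hp s x H).symm c).1) := by
  show ¬ x (hm s x H.symm c).1 = x (s (hm s x H.symm c).1)
  rw [hm_fst]
  exact h

lemma st2 (c : BB G Y q) (h : ¬ x c.1 = x (s c.1)) :
    yy s x ((hp s x H).symm c) = H.symm (yy s x c) := yy_hm s x _ c h

lemma EI_eq (hA0 : ∀ y, y ∈ A 0 ↔ (y.1 : ℕ) < k) (hA1 : ∀ y, H y ∈ A 1 ↔ y ∈ A 0)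
    (hA2 : ∀ y, H y ∈ A 2 ↔ y ∈ A 1) (hA3 : ∀ y, H y ∈ A 3 ↔ y ∈ A 2)
    (hA4 : ∀ y, H (H (H (H y))) ∈ A 4 ↔ ((y.1 : ℕ) < k ∧ (y.2 : ℕ) < k))
    (c : BB G Y q) (h : ¬ x c.1 = x (s c.1)) (i : Fin 5) :
    EI (gp s) (hp s x H) (ev F k s x) i c = if yy s x c ∈ A i then 1 else 0 := by
  have h1 := st1 s x H c h
  have h2 := st1 s x H _ h1
  have h3 := st1 s x H _ h2
  have y1 := st2 s x H c h
  have y2 := st2 s x H _ h1
  have y3 := st2 s x H _ h2
  have y4 := st2 s x H _ h3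
  have B1 : ∀ y, H.symm y ∈ A 0 ↔ y ∈ A 1 := fun y => by
    rw [← hA1 (H.symm y), H.apply_symm_apply]
  have B2 : ∀ y, H.symm y ∈ A 1 ↔ y ∈ A 2 := fun y => by
    rw [← hA2 (H.symm y), H.apply_symm_apply]
  have B3 : ∀ y, H.symm y ∈ A 2 ↔ y ∈ A 3 := fun y => by
    rw [← hA3 (H.symm y), H.apply_symm_apply]
  fin_cases i
  · show (if ((yy s x c).1 : ℕ) < k then (1 : F) else 0) = if yy s x c ∈ A 0 then 1 else 0
    rw [if_congr (hA0 _) rfl rfl]
  · show (if ((yy s x ((hp s x H).symm c)).1 : ℕ) < k then (1 : F) else 0) =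
      if yy s x c ∈ A 1 then 1 else 0
    rw [← if_congr (hA0 _) rfl rfl, y1, if_congr (B1 _) rfl rfl]
  · show (if ((yy s x ((hp s x H).symm ((hp s x H).symm c))).1 : ℕ) < k then (1 : F) else 0) =
      if yy s x c ∈ A 2 then 1 else 0
    rw [← if_congr (hA0 _) rfl rfl, y2, y1, if_congr (B1 _) rfl rfl, if_congr (B2 _) rfl rfl]
  · show (if ((yy s x ((hp s x H).symm ((hp s x H).symm ((hp s x H).symm c)))).1 : ℕ) < k
      then (1 : F) else 0) = if yy s x c ∈ A 3 then 1 else 0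
    rw [← if_congr (hA0 _) rfl rfl, y3, y2, y1, if_congr (B1 _) rfl rfl, if_congr (B2 _) rfl rfl,
      if_congr (B3 _) rfl rfl]
  · show (if ((yy s x ((hp s x H).symm ((hp s x H).symm ((hp s x H).symm
      ((hp s x H).symm c))))).1 : ℕ) < k then (1 : F) else 0) *
      (if ((yy s x ((hp s x H).symm ((hp s x H).symm ((hp s x H).symm
      ((hp s x H).symm c))))).2 : ℕ) < k then (1 : F) else 0) =
      if yy s x c ∈ A 4 then 1 else 0
    rw [y4, y3, y2, y1]
    have B4 := hA4 (H.symm (H.symm (H.symm (H.symm (yy s x c)))))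
    rw [H.apply_symm_apply, H.apply_symm_apply, H.apply_symm_apply, H.apply_symm_apply] at B4
    rw [if_congr B4 rfl rfl]
    by_cases p1 : ((H.symm (H.symm (H.symm (H.symm (yy s x c))))).1 : ℕ) < k
    · by_cases p2 : ((H.symm (H.symm (H.symm (H.symm (yy s x c))))).2 : ℕ) < k
      · simp [p1, p2]
      · simp [p1, p2]
    · simp [p1]

lemma good (hA0 : ∀ y, y ∈ A 0 ↔ (y.1 : ℕ) < k) (hA1 : ∀ y, H y ∈ A 1 ↔ y ∈ A 0)
    (hA2 : ∀ y, H y ∈ A 2 ↔ y ∈ A 1) (hA3 : ∀ y, H y ∈ A 3 ↔ y ∈ A 2)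
    (hA4 : ∀ y, H (H (H (H y))) ∈ A 4 ↔ ((y.1 : ℕ) < k ∧ (y.2 : ℕ) < k))
    (hd : ∀ i j, i ≠ j → Disjoint (A i) (A j))
    (c : BB G Y q) (hc : ∃ i, yy s x c ∈ A i)
    (h : x c.1 ≠ x (s c.1) ∧ x c.1 ≠ x (s⁻¹ c.1) ∧ x (s c.1) ≠ x (s⁻¹ c.1) ∧
      x (s (t c.1)) = x c.1 ∧ x (s (s (t c.1))) = x (s c.1) ∧ x (s⁻¹ (t c.1)) = x (s⁻¹ c.1) ∧
      x (s⁻¹ (s⁻¹ (t (s (t⁻¹ c.1))))) = x (s⁻¹ c.1) ∧
      s⁻¹ (t (s (t⁻¹ (s (t c.1))))) = s (t (s⁻¹ (t (s (t⁻¹ c.1)))))) :
    Good (gp s) (gp t) (hp s x H) (ev F k s x) c := by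
  obtain ⟨a1, a2, a3, a4, a5, a6, a7, a8⟩ := h
  have hE := EI_eq F k s x H A hA0 hA1 hA2 hA3 hA4 c a1
  refine ⟨?_, ?_, ?_, ?_, ?_, ?_, ?_, ?_, ?_⟩
  · intro c
    unfold ev
    split_ifs <;> simp
  · exact Prod.ext a8 rfl
  · show hm s x H (s (t c.1), c.2) = (s (t (hm s x H c).1), (hm s x H c).2)
    have e1 : ¬ x ((s (t c.1), c.2) : BB G Y q).1 = x (s ((s (t c.1), c.2) : BB G Y q).1) := by
      show ¬ x (s (t c.1)) = x (s (s (t c.1)))
      rw [a4, a5]
      exact a1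
    have e2 : yy s x ((s (t c.1), c.2) : BB G Y q) = yy s x c := by
      show (c.2 (x (s (t c.1))), c.2 (x (s (s (t c.1))))) = (c.2 (x c.1), c.2 (x (s c.1)))
      rw [a4, a5]
    rw [hm_neg s x H _ e1, hm_neg s x H c a1, e2]
    refine Prod.ext rfl ?_
    show Function.update (Function.update c.2 (x (s (t c.1))) (H (yy s x c)).1)
      (x (s (s (t c.1)))) (H (yy s x c)).2 = _
    rw [a4, a5]
  · refine ev_eq F k s x _ _ ?_
    show c.2 (x (s (t c.1))) = c.2 (x c.1)
    rw [a4]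
  · refine ev_eq F k s x _ _ ?_
    show c.2 (x (s⁻¹ (t c.1))) = c.2 (x (s⁻¹ c.1))
    rw [a6]
  · refine ev_eq F k s x _ _ ?_
    show c.2 (x (s⁻¹ (s⁻¹ (t (s (t⁻¹ c.1)))))) = c.2 (x (s⁻¹ c.1))
    rw [a7]
  · refine ev_eq F k s x _ _ ?_
    show (hm s x H c).2 (x (s⁻¹ (hm s x H c).1)) = c.2 (x (s⁻¹ c.1))
    rw [hm_fst, hm_neg s x H c a1]
    show Function.update (Function.update c.2 (x c.1) (H (yy s x c)).1) (x (s c.1))
      (H (yy s x c)).2 (x (s⁻¹ c.1)) = _
    rw [Function.update_of_ne (Ne.symm a3), Function.update_of_ne (Ne.symm a2)]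
  · intro i j hij
    rw [hE i, hE j]
    by_cases hi : yy s x c ∈ A i
    · rw [if_neg (Finset.disjoint_left.1 (hd i j hij) hi), mul_zero]
    · rw [if_neg hi, zero_mul]
  · obtain ⟨i, hi⟩ := hc
    have h0 : EI (gp s) (hp s x H) (ev F k s x) i c - 1 = 0 := by
      rw [hE i, if_pos hi, sub_self]
    fin_cases i <;> simp only [Fin.zero_eta, Fin.mk_one, Fin.reduceFinMk] at h0 <;>
      rw [h0] <;> ring

end

theorem UP (F : Type u) [Field F] (h1 : ST_FO) (h2 : ST_HH) (h3 : ST_CF) : ST_UP F := by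
  classical
  intro η hη
  obtain ⟨N, hN⟩ : ∃ N : ℕ, 2 / η ≤ N ∧ 0 < N := by
    obtain ⟨n, hn⟩ := exists_nat_ge (2 / η)
    exact ⟨n + 1, by push_cast; linarith, Nat.succ_pos n⟩
  obtain ⟨q, k, hq, hkq, hqk, hr⟩ := h3 N
  obtain ⟨H, A, hA0, hA1, hA2, hA3, hA4, hd, hU⟩ := h2 q k hkq hqk
  obtain ⟨G, Y, _, _, _, _, _, s, t, x, bad, hbad, hg⟩ := h1 N hN.2
  have hq0 : 0 < q := lt_of_lt_of_le hN.2 hq
  have : NeZero q := ⟨hq0.ne'⟩
  obtain ⟨U, hUd⟩ : ∃ U : Finset (Fin q × Fin q), U = Finset.univ \ (Finset.univ.biUnion A) :=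
    ⟨_, rfl⟩
  rw [← hUd] at hU
  set b : ℕ := Fintype.card (BB G Y q) with hb
  have hb0 : 0 < b := Fintype.card_pos
  let ε : BB G Y q ≃ Fin b := Fintype.equivFin _
  let Z : Vr → Matrix (BB G Y q) (BB G Y q) F := fun v =>
    mo (ph (gp s) (gp t) (hp s x H) v) (ka (gp s) (gp t) (hp s x H) (ev F k s x) v)
  refine ⟨b, hb0, fun v => (Z v).submatrix ε.symm ε.symm, ?_, ?_, ?_⟩
  · -- constants
    intro i a h
    have hone : Z Vr.one = 1 := by
      show mo id (fun _ => (1 : F)) = 1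
      rw [mo_id]
      exact Matrix.diagonal_one
    have hzero : Z Vr.zero = 0 := by
      show mo id (fun _ => (0 : F)) = 0
      rw [mo_id]
      exact Matrix.diagonal_zero
    cases i <;> simp only [SY, Option.some.injEq, reduceCtorEq] at h
    · rw [← h]
      show (Z Vr.one).submatrix ε.symm ε.symm = (1 : F) • 1
      rw [hone, one_smul, Matrix.submatrix_one_equiv]
    · rw [← h]
      show (Z Vr.zero).submatrix ε.symm ε.symm = (0 : F) • 1
      rw [hzero, zero_smul]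
      rfl
  · -- rank of `e`
    have e1 : ((Z Vr.e).submatrix ε.symm ε.symm).rank = (Z Vr.e).rank :=
      Matrix.rank_submatrix _ _ _
    have e2 : Z Vr.e = Matrix.diagonal (ev F k s x) := mo_id _
    have e3 : (Z Vr.e).rank ≤ (Finset.univ.filter fun c : BB G Y q =>
        ((yy s x c).1 : ℕ) < k).card := by
      rw [e2, Matrix.rank_diagonal, Fintype.card_subtype]
      refine Finset.card_le_card fun c hc => ?_
      rw [Finset.mem_filter] at hc ⊢
      refine ⟨hc.1, ?_⟩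
      by_contra hcon
      exact hc.2 (if_neg hcon)
    have e4 := card_one (k := k) x (Finset.univ.filter fun c : BB G Y q =>
        ((yy s x c).1 : ℕ) < k) (fun c hc => (Finset.mem_filter.1 hc).2)
    have e5 : ((Z Vr.e).rank : ℝ) * q ≤ k * b := by
      have : (Z Vr.e).rank * q ≤ k * b := (Nat.mul_le_mul_right q e3).trans e4
      exact_mod_cast this
    show (((Z Vr.e).submatrix ε.symm ε.symm).rank : ℝ) ≤ (Real.sqrt 5 - 2) * b
    rw [e1]
    have hqr : (0 : ℝ) < q := by exact_mod_cast hq0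
    have e6 : ((Z Vr.e).rank : ℝ) ≤ k / q * b := by
      rw [div_mul_eq_mul_div, le_div_iff₀ hqr]
      exact e5
    exact e6.trans (mul_le_mul_of_nonneg_right hr (Nat.cast_nonneg _))
  · -- the bad columns
    obtain ⟨V1, hV1⟩ : ∃ V1 : Finset (BB G Y q), V1 = bad ×ˢ Finset.univ := ⟨_, rfl⟩
    obtain ⟨V2, hV2⟩ : ∃ V2 : Finset (BB G Y q), V2 = Finset.univ.filter fun c : BB G Y q =>
      ¬ x c.1 = x (s c.1) ∧ yy s x c ∈ U := ⟨_, rfl⟩
    have c1 : V1.card * N ≤ b := by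
      have e1 : V1.card = bad.card * Fintype.card (Y → Fin q) := by
        rw [hV1, Finset.card_product, Finset.card_univ]
      have e2 : b = Fintype.card G * Fintype.card (Y → Fin q) := by
        rw [hb]
        exact Fintype.card_prod _ _
      rw [e1, e2]
      calc bad.card * Fintype.card (Y → Fin q) * N
          = bad.card * N * Fintype.card (Y → Fin q) := by ring
        _ ≤ _ := Nat.mul_le_mul_right _ hbad
    have c2 : V2.card * (q * q) ≤ b := by
      refine (card_pair s x U V2 (fun c hc => ?_)).trans ?_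
      · rw [hV2] at hc
        exact (Finset.mem_filter.1 hc).2
      · calc U.card * Fintype.card (BB G Y q) ≤ 1 * Fintype.card (BB G Y q) :=
              Nat.mul_le_mul_right _ hU
          _ = b := one_mul _
    have c3 : V2.card * N ≤ b := by
      refine le_trans (Nat.mul_le_mul_left _ ?_) c2
      exact hq.trans (Nat.le_mul_of_pos_left q hq0)
    have c4 : ∀ m : ℕ, m * N ≤ b → (m : ℝ) ≤ η / 2 * b := by
      intro m hm
      have g1 : (m : ℝ) * N ≤ b := by exact_mod_cast hm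
      have g2 : (m : ℝ) * (2 / η) ≤ m * N := mul_le_mul_of_nonneg_left hN.1 (Nat.cast_nonneg _)
      have g3 : (m : ℝ) * (2 / η) ≤ b := g2.trans g1
      rw [← mul_div_assoc, div_le_iff₀ hη] at g3
      linarith
    have key : ∀ c : BB G Y q, c ∉ V1 ∪ V2 →
        Good (gp s) (gp t) (hp s x H) (ev F k s x) c := by
      intro c hc
      rw [Finset.mem_union, not_or] at hc
      have hcb : c.1 ∉ bad := by
        intro hh
        apply hc.1
        rw [hV1]
        exact Finset.mem_product.2 ⟨hh, Finset.mem_univ _⟩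
      have hgc := hg c.1 hcb
      have hcU : yy s x c ∉ U := by
        intro hh
        apply hc.2
        rw [hV2]
        exact Finset.mem_filter.2 ⟨Finset.mem_univ _, hgc.1, hh⟩
      have hcA : ∃ i, yy s x c ∈ A i := by
        rw [hUd, Finset.mem_sdiff, not_and, not_not] at hcU
        have := hcU (Finset.mem_univ _)
        rw [Finset.mem_biUnion] at this
        obtain ⟨i, -, hi⟩ := this
        exact ⟨i, hi⟩
      exact good F k s t x H A hA0 hA1 hA2 hA3 hA4 hd c hcA hgc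
    refine ⟨(V1 ∪ V2).map ε.toEmbedding, ?_, ?_, ?_⟩
    · rw [Finset.card_map]
      have g1 : ((V1 ∪ V2).card : ℝ) ≤ V1.card + V2.card := by
        exact_mod_cast Finset.card_union_le V1 V2
      linarith [c4 _ c1, c4 _ c3]
    · intro m c hc a
      have hc' : ε.symm c ∉ V1 ∪ V2 := by
        intro hh
        apply hc
        rw [Finset.mem_map]
        exact ⟨_, hh, by simp⟩
      have hk := ok (gp s) (gp t) (hp s x H) (ev F k s x) _ (key _ hc') (pr.get m)
        (List.get_mem _ _)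
      show ((Z ((SY F).l m)).submatrix ε.symm ε.symm *
        (Z ((SY F).r m)).submatrix ε.symm ε.symm) a c =
        (Z ((SY F).o m)).submatrix ε.symm ε.symm a c
      rw [Matrix.submatrix_mul_equiv]
      exact mo_mul_eq hk.1 hk.2 _
    · intro i j a hij h
      have hEn : ∀ i : Fin 5, Z (Vr.E i) - Z (Vr.n i) = 1 := by
        intro i
        show mo id (EI (gp s) (hp s x H) (ev F k s x) i) -
          mo id (fun c => EI (gp s) (hp s x H) (ev F k s x) i c - 1) = 1
        rw [mo_id, mo_id, Matrix.diagonal_sub]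
        simp
      cases i <;> cases j <;> simp only [SY, reduceCtorEq] at h
      rename_i i j
      split_ifs at h with hh
      · subst hh
        simp only [Option.some.injEq] at h
        rw [← h]
        show (Z (Vr.E i)).submatrix ε.symm ε.symm - (Z (Vr.n i)).submatrix ε.symm ε.symm =
          (1 : F) • 1
        rw [one_smul, ← Matrix.submatrix_one_equiv ε.symm, ← hEn i]
        rfl

end Pool.Agent.Helper89.FR
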