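import Pool.Agent.Helper42.FR.Stmts

/-!
# Row UP, part a: monomial matrices and the permutations
-/

set_option autoImplicit false

namespace Pool.Agent.Helper89.FR

open Matrix Pool.Agent.Helper81.Fmr Pool.Agent.Helper42.FR

universe u

section mono
variable {F : Type u} [Field F] {B : Type} [Fintype B] [DecidableEq B]

/-- the matrix with column `c` equal to `κ c` times the basis vector `φ c` -/
def mo (φ : B → B) (κ : B → F) : Matrix B B F := fun a c => if a = φ c then κ c else 0

lemma mo_mul (φ φ' : B → B) (κ κ' : B → F) (a c : B) :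
    (mo φ κ * mo φ' κ') a c = if a = φ (φ' c) then κ (φ' c) * κ' c else 0 := by
  rw [Matrix.mul_apply, Finset.sum_eq_single (φ' c)]
  · simp [mo]
  · intro b _ hb
    simp [mo, hb]
  · intro h
    exact absurd (Finset.mem_univ _) h

lemma mo_mul_eq {φ φ' φ'' : B → B} {κ κ' κ'' : B → F} {c : B} (h1 : φ (φ' c) = φ'' c)
    (h2 : κ (φ' c) * κ' c = κ'' c) (a : B) : (mo φ κ * mo φ' κ') a c = mo φ'' κ'' a c := by
  rw [mo_mul, h1, h2]
  rfl

lemma mo_id (κ : B → F) : mo id κ = Matrix.diagonal κ := by
  ext a c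
  by_cases h : a = c
  · subst h
    simp [mo]
  · simp [mo, Matrix.diagonal_apply_ne _ h, h]

end mono

/-- the basis -/
abbrev BB (G Y : Type) (q : ℕ) : Type := G × (Y → Fin q)

section
variable {G Y : Type} {q : ℕ} [DecidableEq Y] (s : Equiv.Perm G) (x : G → Y)

/-- the two coordinates -/
def yy (c : BB G Y q) : Fin q × Fin q := (c.2 (x c.1), c.2 (x (s c.1)))

/-- change of the two coordinates -/
def hm (K : Fin q × Fin q → Fin q × Fin q) (c : BB G Y q) : BB G Y q :=
  if x c.1 = x (s c.1) then c else
    (c.1, Function.update (Function.update c.2 (x c.1) (K (yy s x c)).1) (x (s c.1))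
      (K (yy s x c)).2)

lemma hm_pos (K : Fin q × Fin q → Fin q × Fin q) (c : BB G Y q) (h : x c.1 = x (s c.1)) :
    hm s x K c = c := if_pos h

lemma hm_neg (K : Fin q × Fin q → Fin q × Fin q) (c : BB G Y q) (h : ¬ x c.1 = x (s c.1)) :
    hm s x K c = (c.1, Function.update (Function.update c.2 (x c.1) (K (yy s x c)).1)
      (x (s c.1)) (K (yy s x c)).2) := if_neg h

lemma hm_fst (K : Fin q × Fin q → Fin q × Fin q) (c : BB G Y q) : (hm s x K c).1 = c.1 := by
  unfold hm
  split_ifs <;> rfl

lemma yy_hm (K : Fin q × Fin q → Fin q × Fin q) (c : BB G Y q) (h : ¬ x c.1 = x (s c.1)) :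
    yy s x (hm s x K c) = K (yy s x c) := by
  rw [hm_neg s x K c h]
  show (Function.update (Function.update c.2 (x c.1) (K (yy s x c)).1) (x (s c.1))
      (K (yy s x c)).2 (x c.1), Function.update (Function.update c.2 (x c.1) (K (yy s x c)).1)
      (x (s c.1)) (K (yy s x c)).2 (x (s c.1))) = _
  rw [Function.update_of_ne h, Function.update_self, Function.update_self]

lemma hm_congr (K L : Fin q × Fin q → Fin q × Fin q) (c : BB G Y q)
    (h : K (yy s x c) = L (yy s x c)) : hm s x K c = hm s x L c := by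
  unfold hm
  rw [h]

lemma hm_hm (K L : Fin q × Fin q → Fin q × Fin q) (c : BB G Y q) :
    hm s x K (hm s x L c) = hm s x (K ∘ L) c := by
  by_cases h : x c.1 = x (s c.1)
  · rw [hm_pos s x L c h, hm_pos s x K c h, hm_pos s x (K ∘ L) c h]
  · have h' : ¬ x (hm s x L c).1 = x (s (hm s x L c).1) := by
      rw [hm_fst]
      exact h
    rw [hm_neg s x K _ h', yy_hm s x L c h, hm_fst, hm_neg s x (K ∘ L) c h, hm_neg s x L c h]
    refine Prod.ext rfl ?_
    funext y
    simp only [Function.update_apply, Function.comp_apply]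
    split_ifs <;> rfl

lemma hm_id (c : BB G Y q) : hm s x id c = c := by
  by_cases h : x c.1 = x (s c.1)
  · exact hm_pos s x _ c h
  · rw [hm_neg s x _ c h]
    refine Prod.ext rfl ?_
    show Function.update (Function.update c.2 (x c.1) (c.2 (x c.1))) (x (s c.1))
      (c.2 (x (s c.1))) = c.2
    rw [Function.update_eq_self, Function.update_eq_self]

/-- the permutation given by `H` -/
def hp (H : Equiv.Perm (Fin q × Fin q)) : Equiv.Perm (BB G Y q) where
  toFun := hm s x H
  invFun := hm s x H.symm
  left_inv c := by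
    rw [hm_hm]
    have : (H.symm : Fin q × Fin q → Fin q × Fin q) ∘ H = id := by
      funext y
      exact H.symm_apply_apply y
    rw [this, hm_id]
  right_inv c := by
    rw [hm_hm]
    have : (H : Fin q × Fin q → Fin q × Fin q) ∘ H.symm = id := by
      funext y
      exact H.apply_symm_apply y
    rw [this, hm_id]

/-- a permutation of `G` on the basis -/
def gp (u : Equiv.Perm G) : Equiv.Perm (BB G Y q) where
  toFun c := (u c.1, c.2)
  invFun c := (u.symm c.1, c.2)
  left_inv c := by simp
  right_inv c := by simp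

end

/-! ### counting -/

lemma card_pair {G Y : Type} {q : ℕ} [DecidableEq Y] [Fintype G] [Fintype Y] [DecidableEq G]
    (s : Equiv.Perm G) (x : G → Y) (U : Finset (Fin q × Fin q)) (V : Finset (BB G Y q))
    (hV : ∀ c ∈ V, ¬ x c.1 = x (s c.1) ∧ yy s x c ∈ U) :
    V.card * (q * q) ≤ U.card * Fintype.card (BB G Y q) := by
  have e1 : V.card * (q * q) = (V ×ˢ (Finset.univ : Finset (Fin q × Fin q))).card := by
    rw [Finset.card_product]
    simp
  have e2 : U.card * Fintype.card (BB G Y q) =
      (U ×ˢ (Finset.univ : Finset (BB G Y q))).card := by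
    rw [Finset.card_product, Finset.card_univ]
  rw [e1, e2]
  refine Finset.card_le_card_of_injOn (fun p => (yy s x p.1, hm s x (fun _ => p.2) p.1)) ?_ ?_
  · intro p hp
    have hp1 := (Finset.mem_product.1 (Finset.mem_coe.1 hp)).1
    exact Finset.mem_coe.2 (Finset.mem_product.2 ⟨(hV _ hp1).2, Finset.mem_univ _⟩)
  · rintro ⟨c, w⟩ hc ⟨c', w'⟩ hc' h
    have hc1 := (hV c (Finset.mem_product.1 (Finset.mem_coe.1 hc)).1).1
    have hc1' := (hV c' (Finset.mem_product.1 (Finset.mem_coe.1 hc')).1).1
    simp only [Prod.mk.injEq] at h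
    obtain ⟨h1, h2⟩ := h
    have h3 := congrArg (yy s x) h2
    rw [yy_hm s x _ _ hc1, yy_hm s x _ _ hc1'] at h3
    have h4 := congrArg (hm s x (fun _ => yy s x c)) h2
    rw [hm_hm, hm_hm] at h4
    have h5 : hm s x ((fun _ => yy s x c) ∘ fun _ => w) c = c :=
      (hm_congr s x _ id c rfl).trans (hm_id s x c)
    have h6 : hm s x ((fun _ => yy s x c) ∘ fun _ => w') c' = c' :=
      (hm_congr s x _ id c' (by simpa using h1)).trans (hm_id s x c')
    rw [h5, h6] at h4
    rw [h4, h3]

lemma card_one {G Y : Type} {q k : ℕ} [DecidableEq Y] [Fintype G] [Fintype Y] [DecidableEq G]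
    (x : G → Y) (V : Finset (BB G Y q)) (hV : ∀ c ∈ V, ((c.2 (x c.1) : Fin q) : ℕ) < k) :
    V.card * q ≤ k * Fintype.card (BB G Y q) := by
  have e1 : V.card * q = (V ×ˢ (Finset.univ : Finset (Fin q))).card := by
    rw [Finset.card_product]
    simp
  have e2 : k * Fintype.card (BB G Y q) =
      (Finset.range k ×ˢ (Finset.univ : Finset (BB G Y q))).card := by
    rw [Finset.card_product, Finset.card_univ, Finset.card_range]
  rw [e1, e2]
  refine Finset.card_le_card_of_injOn
    (fun p => (((p.1.2 (x p.1.1) : Fin q) : ℕ), (p.1.1, Function.update p.1.2 (x p.1.1) p.2))) ?_ ?_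
  · intro p hp
    have hp1 := (Finset.mem_product.1 (Finset.mem_coe.1 hp)).1
    exact Finset.mem_coe.2 (Finset.mem_product.2
      ⟨Finset.mem_range.2 (hV _ hp1), Finset.mem_univ _⟩)
  · rintro ⟨⟨g, f⟩, w⟩ hc ⟨⟨g', f'⟩, w'⟩ hc' h
    simp only [Prod.mk.injEq] at h
    obtain ⟨h1, h2, h3⟩ := h
    subst h2
    have h4 : w = w' := by
      have := congrFun h3 (x g)
      rwa [Function.update_self, Function.update_self] at this
    have h5 : f = f' := by
      funext y
      by_cases hy : y = x g
      · rw [hy]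
        exact Fin.ext h1
      · have := congrFun h3 y
        rwa [Function.update_of_ne hy, Function.update_of_ne hy] at this
    rw [h4, h5]

end Pool.Agent.Helper89.FR
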