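import Pool.Agent.Helper89.FR.UPa

/-!
# Row UP, part b: the unknowns
-/

set_option autoImplicit false

namespace Pool.Agent.Helper89.FR

open Matrix Pool.Agent.Helper81.Fmr Pool.Agent.Helper42.FR

universe u

section
variable {F : Type u} [Field F] {B : Type} (S T Hp : Equiv.Perm B) (e : B → F)

/-- the commutator -/
def Kp : Equiv.Perm B := ((T.symm.trans S).trans T).trans S.symm

/-- `e (c) e (S c)` -/
def qv (c : B) : F := e c * e (S c)

/-- the five idempotents -/
def EI : Fin 5 → B → F :=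
  ![fun c => e c, fun c => e (Hp.symm c), fun c => e (Hp.symm (Hp.symm c)),
    fun c => e (Hp.symm (Hp.symm (Hp.symm c))),
    fun c => qv S e (Hp.symm (Hp.symm (Hp.symm (Hp.symm c))))]

/-- the conjugates of `q` -/
def GI : Fin 3 → B → F :=
  ![fun c => qv S e (Hp.symm c), fun c => qv S e (Hp.symm (Hp.symm c)),
    fun c => qv S e (Hp.symm (Hp.symm (Hp.symm c)))]

/-- the maps -/
def ph : Vr → B → B
  | .one => id
  | .zero => id
  | .s => S
  | .s' => S.symm
  | .t => T
  | .t' => T.symm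
  | .h => Hp
  | .h' => Hp.symm
  | .k => Kp S T
  | .e => id
  | .e1 => id
  | .em => id
  | .se => S
  | .es => S
  | .ts => fun c => T (S c)
  | .sk => fun c => S (Kp S T c)
  | .st => fun c => S (T c)
  | .kst => fun c => Kp S T (S (T c))
  | .hst => fun c => Hp (S (T c))
  | .est => fun c => S (T c)
  | .te1 => T
  | .ke1 => Kp S T
  | .he1 => Hp
  | .ee1 => id
  | .q => id
  | .E _ => id
  | .G _ => id
  | .hE _ => Hp
  | .hG _ => Hp
  | .n _ => id
  | .p _ => id

/-- the coefficients -/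
def ka : Vr → B → F
  | .one => fun _ => 1
  | .zero => fun _ => 0
  | .s => fun _ => 1
  | .s' => fun _ => 1
  | .t => fun _ => 1
  | .t' => fun _ => 1
  | .h => fun _ => 1
  | .h' => fun _ => 1
  | .k => fun _ => 1
  | .e => e
  | .e1 => fun c => e (S.symm c)
  | .em => fun c => e (S c)
  | .se => e
  | .es => fun c => e (S c)
  | .ts => fun _ => 1
  | .sk => fun _ => 1
  | .st => fun _ => 1
  | .kst => fun _ => 1
  | .hst => fun _ => 1
  | .est => fun c => e (S (T c))
  | .te1 => fun c => e (S.symm c)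
  | .ke1 => fun c => e (S.symm c)
  | .he1 => fun c => e (S.symm c)
  | .ee1 => fun c => e c * e (S.symm c)
  | .q => qv S e
  | .E i => EI S Hp e i
  | .G i => GI S Hp e i
  | .hE i => ![EI S Hp e 0, EI S Hp e 1, EI S Hp e 2] i
  | .hG i => ![qv S e, GI S Hp e 0, GI S Hp e 1, GI S Hp e 2] i
  | .n i => fun c => EI S Hp e i c - 1
  | .p i => ![fun c => (EI S Hp e 0 c - 1) * (EI S Hp e 1 c - 1),
      fun c => (EI S Hp e 0 c - 1) * (EI S Hp e 1 c - 1) * (EI S Hp e 2 c - 1),
      fun c => (EI S Hp e 0 c - 1) * (EI S Hp e 1 c - 1) * (EI S Hp e 2 c - 1) *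
        (EI S Hp e 3 c - 1)] i

/-- the column `c` is good -/
structure Good (c : B) : Prop where
  id : ∀ c, e c * e c = e c
  g1 : Kp S T (S (T c)) = S (T (Kp S T c))
  g2 : Hp (S (T c)) = S (T (Hp c))
  g3 : e (S (T c)) = e c
  g4 : e (S.symm (T c)) = e (S.symm c)
  g5 : e (S.symm (Kp S T c)) = e (S.symm c)
  g6 : e (S.symm (Hp c)) = e (S.symm c)
  g7 : ∀ i j, i ≠ j → EI S Hp e i c * EI S Hp e j c = 0
  g8 : (EI S Hp e 0 c - 1) * (EI S Hp e 1 c - 1) * (EI S Hp e 2 c - 1) *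
        (EI S Hp e 3 c - 1) * (EI S Hp e 4 c - 1) = 0

lemma ok (c : B) (h : Good S T Hp e c) : ∀ p ∈ pr,
    ph S T Hp p.1 (ph S T Hp p.2.1 c) = ph S T Hp p.2.2 c ∧
    ka S T Hp e p.1 (ph S T Hp p.2.1 c) * ka S T Hp e p.2.1 c = ka S T Hp e p.2.2 c := by
  have hK : ∀ c, S (Kp S T c) = T (S (T.symm c)) := by
    intro c
    simp [Kp]
  intro p hp
  simp only [pr, List.mem_cons, List.not_mem_nil, or_false] at hp
  rcases hp with rfl | rfl | rfl | rfl | rfl | rfl | rfl | rfl | rfl | rfl | rfl | rfl | rfl |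
    rfl | rfl | rfl | rfl | rfl | rfl | rfl | rfl | rfl | rfl | rfl | rfl | rfl | rfl | rfl |
    rfl | rfl | rfl | rfl | rfl | rfl | rfl | rfl | rfl | rfl | rfl | rfl | rfl | rfl | rfl |
    rfl | rfl | rfl | rfl | rfl | rfl | rfl | rfl | rfl | rfl | rfl | rfl | rfl | rfl | rfl |
    rfl | rfl | rfl | rfl | rfl | rfl | rfl | rfl | rfl | rfl | rfl | rfl
  all_goals refine ⟨?_, ?_⟩
  all_goals first
    | rfl
    | (simp [ph, ka, EI, GI, hK, h.g1, h.g2, h.g3, h.g4, h.g5, h.g6, h.id]; done)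
    | exact mul_comm _ _
    | exact h.g7 _ _ (by decide)
    | exact h.g8

end

end Pool.Agent.Helper89.FR
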